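import Mathlib

/-!
# Families of pairs of subspaces which meet crosswise

If `U i`, `W i` are pairs of disjoint subspaces of a space of dimension `D` such that for `i ≠ j`
the pair `(U i, W j)` or the pair `(U j, W i)` is not disjoint, then there are at most
`(2 D).choose D ≤ 4 ^ D` pairs.
-/

set_option autoImplicit false

open Module

namespace Pool.Agent.Helper85_SD

variable {K : Type*} [Field K] {D : ℕ}

omit [Field K] in
theorem of_update (w v : Fin D → (Fin D ⊕ Fin D → K)) (i : Fin D)
    (z : Fin D ⊕ Fin D → K) : Matrix.of (Sum.elim (Function.update v i z) w) =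
      Matrix.updateRow (Matrix.of (Sum.elim v w)) (Sum.inl i) z := by
  rw [← Sum.update_elim_inl]
  rfl

/-- the determinant as an alternating form in its first rows -/
noncomputable def phi (w : Fin D → (Fin D ⊕ Fin D → K)) :
    (Fin D ⊕ Fin D → K) [⋀^Fin D]→ₗ[K] K where
  toFun v := Matrix.det (Matrix.of (Sum.elim v w))
  map_update_add' := by
    intro inst v i x y
    have hinst : inst = instDecidableEqFin D := Subsingleton.elim _ _
    subst hinst
    rw [of_update, of_update, of_update, Matrix.det_updateRow_add]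
  map_update_smul' := by
    intro inst v i c x
    have hinst : inst = instDecidableEqFin D := Subsingleton.elim _ _
    subst hinst
    rw [of_update, of_update, Matrix.det_updateRow_smul, smul_eq_mul]
  map_eq_zero_of_eq' := by
    intro v i j hv hij
    refine Matrix.det_zero_of_row_eq (i := Sum.inl i) (j := Sum.inl j) ?_ ?_
    · exact fun h => hij (Sum.inl.inj h)
    · exact hv

theorem phi_apply (P Q : Matrix (Fin D) (Fin D) K) :
    phi (fun r => Sum.elim ((-Q) r) ((1 : Matrix (Fin D) (Fin D) K) r))
      (fun r => Sum.elim ((1 - P) r) ((-1 : Matrix (Fin D) (Fin D) K) r)) = (1 - P - Q).det := by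
  have e : (Matrix.of (Sum.elim (fun r => Sum.elim ((1 - P) r) ((-1 : Matrix (Fin D) (Fin D) K) r))
      (fun r => Sum.elim ((-Q) r) ((1 : Matrix (Fin D) (Fin D) K) r)))) =
      Matrix.fromBlocks (1 - P) (-1) (-Q) 1 := by
    ext a b
    rcases a with a | a <;> rcases b with b | b <;> rfl
  change Matrix.det (Matrix.of (Sum.elim (fun r => Sum.elim ((1 - P) r)
    ((-1 : Matrix (Fin D) (Fin D) K) r))
      (fun r => Sum.elim ((-Q) r) ((1 : Matrix (Fin D) (Fin D) K) r)))) = _
  rw [e, Matrix.det_fromBlocks_one₂₂]
  congr 1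
  rw [neg_mul_neg, one_mul]

theorem card_idem {ι : Type*} [Fintype ι] (P : ι → Matrix (Fin D) (Fin D) K)
    (h1 : ∀ i, P i * P i = P i) (h2 : ∀ i j, i ≠ j → (1 - P i - P j).det = 0) :
    Fintype.card ι ≤ (2 * D).choose D := by
  classical
  set p : ι → ⋀[K]^D (Fin D ⊕ Fin D → K) := fun i => exteriorPower.ιMulti K D
    (fun r => Sum.elim ((1 - P i) r) ((-1 : Matrix (Fin D) (Fin D) K) r)) with hp
  set F : ι → (⋀[K]^D (Fin D ⊕ Fin D → K) →ₗ[K] K) := fun j =>
    exteriorPower.alternatingMapLinearEquiv
      (phi (fun r => Sum.elim ((-P j) r) ((1 : Matrix (Fin D) (Fin D) K) r))) with hF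
  have hFp : ∀ i j, F j (p i) = (1 - P i - P j).det := by
    intro i j
    rw [hF, hp]
    simp only
    rw [exteriorPower.alternatingMapLinearEquiv_apply_ιMulti, phi_apply]
  have hli : LinearIndependent K p := by
    rw [Fintype.linearIndependent_iff]
    intro g hg i
    have h3 : F i (∑ j, g j • p j) = 0 := by rw [hg, map_zero]
    rw [map_sum, Finset.sum_eq_single i] at h3
    · rw [map_smul, hFp, smul_eq_mul] at h3
      rcases mul_eq_zero.1 h3 with h4 | h4
      · exact h4
      · exfalso
        have h5 : (1 - P i - P i) * (1 - P i - P i) = 1 := by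
          have := h1 i
          noncomm_ring
          rw [this]
          abel
        have h6 := congrArg Matrix.det h5
        rw [Matrix.det_mul, h4, Matrix.det_one, zero_mul] at h6
        exact zero_ne_one h6
    · intro j _ hj
      rw [map_smul, hFp, h2 j i hj, smul_zero]
    · intro h
      exact absurd (Finset.mem_univ i) h
  have h7 := hli.fintype_card_le_finrank
  rw [exteriorPower.finrank_eq, Module.finrank_fintype_fun_eq_card, Fintype.card_sum,
    Fintype.card_fin] at h7
  rwa [two_mul]

/-- Pairs of subspaces which meet crosswise. -/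
theorem card_subspaces {V : Type*} [AddCommGroup V] [Module K V] [FiniteDimensional K V]
    {ι : Type*} [Fintype ι] (U W : ι → Submodule K V) (h0 : ∀ i, Disjoint (U i) (W i))
    (h : ∀ i j, i ≠ j → ¬ (Disjoint (U i) (W j) ∧ Disjoint (U j) (W i))) :
    Fintype.card ι ≤ (2 * finrank K V).choose (finrank K V) := by
  classical
  have hc : ∀ i, ∃ W' : Submodule K V, W i ≤ W' ∧ IsCompl (U i) W' := by
    intro i
    obtain ⟨a, ha, hb⟩ := (h0 i).symm.exists_isCompl
    exact ⟨a, ha, hb.symm⟩
  choose W' hW hI using hc
  set b := Module.finBasis K V with hb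
  set f : ι → (V →ₗ[K] V) := fun i => (U i).projection (W' i) (hI i) with hf
  refine card_idem (fun i => LinearMap.toMatrix b b (f i)) ?_ ?_
  · intro i
    rw [← LinearMap.toMatrix_comp b b b]
    congr 1
    ext x
    rw [hf]
    simp
  · intro i j hij
    have e : (1 : Matrix (Fin (finrank K V)) (Fin (finrank K V)) K) -
        LinearMap.toMatrix b b (f i) - LinearMap.toMatrix b b (f j) =
        LinearMap.toMatrix b b (LinearMap.id - f i - f j) := by
      rw [map_sub, map_sub, LinearMap.toMatrix_id]
    rw [e, LinearMap.det_toMatrix]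
    have hx : ∃ x : V, x ≠ 0 ∧ ((LinearMap.id : V →ₗ[K] V) - f i - f j) x = 0 := by
      have h3 := h i j hij
      rw [not_and_or] at h3
      rcases h3 with h3 | h3
      · rw [Submodule.disjoint_def] at h3
        push Not at h3
        obtain ⟨x, hx1, hx2, hx3⟩ := h3
        refine ⟨x, hx3, ?_⟩
        have e1 : f i x = x := Submodule.projection_apply_of_mem_left (hI i) hx1
        have e2 : f j x = 0 := (Submodule.projection_apply_eq_zero_iff (hI j)).2 (hW j hx2)
        rw [LinearMap.sub_apply, LinearMap.sub_apply, e1, e2]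
        simp
      · rw [Submodule.disjoint_def] at h3
        push Not at h3
        obtain ⟨x, hx1, hx2, hx3⟩ := h3
        refine ⟨x, hx3, ?_⟩
        have e1 : f j x = x := Submodule.projection_apply_of_mem_left (hI j) hx1
        have e2 : f i x = 0 := (Submodule.projection_apply_eq_zero_iff (hI i)).2 (hW i hx2)
        rw [LinearMap.sub_apply, LinearMap.sub_apply, e1, e2]
        simp
    obtain ⟨x, hx1, hx2⟩ := hx
    by_contra hne
    have hu : IsUnit (LinearMap.det ((LinearMap.id : V →ₗ[K] V) - f i - f j)) := isUnit_iff_ne_zero.2 hne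
    have hk := LinearMap.isUnit_iff_ker_eq_bot _ |>.1 ((LinearMap.isUnit_iff_isUnit_det _).2 hu)
    exact hx1 ((LinearMap.ker_eq_bot'.1 hk) x hx2)

theorem card_subspaces_le {V : Type*} [AddCommGroup V] [Module K V] [FiniteDimensional K V]
    {ι : Type*} [Fintype ι] (U W : ι → Submodule K V) (h0 : ∀ i, Disjoint (U i) (W i))
    (h : ∀ i j, i ≠ j → ¬ (Disjoint (U i) (W j) ∧ Disjoint (U j) (W i))) :
    Fintype.card ι ≤ 4 ^ finrank K V := by
  refine (card_subspaces U W h0 h).trans ((Nat.choose_le_two_pow _ _).trans_eq ?_)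
  rw [pow_mul]
  norm_num

end Pool.Agent.Helper85_SD
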