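import Mathlib
import Pool.Agent.Helper5_SD.En
import Pool.Agent.Helper5_SD.Tu
import Pool.Agent.Helper85_SD.Li

/-!
# The structure theorem and the linear barrier for the simultaneous double product property
-/

set_option autoImplicit false

open Finset Module
open scoped Pointwise

namespace Pool.Agent.Helper85_SD

open Pool.Agent.SD5

section

variable {H : Type*} [AddCommGroup H] [DecidableEq H]

/-- all sums `a + b` are distinct -/
def Dir (A B : Finset H) : Prop := (A + B).card = A.card * B.card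

theorem dir_iff {A B : Finset H} : Dir A B ↔
    ∀ a ∈ A, ∀ a' ∈ A, ∀ b ∈ B, ∀ b' ∈ B, a + b = a' + b' → a = a' ∧ b = b' := by
  have h1 : (A ×ˢ B).card = A.card * B.card := card_product A B
  have h2 : A + B = (A ×ˢ B).image fun p => p.1 + p.2 := rfl
  unfold Dir
  rw [h2, ← h1, card_image_iff]
  constructor
  · intro h a ha a' ha' b hb b' hb' he
    have := @h (a, b) (mem_coe.2 (mem_product.2 ⟨ha, hb⟩)) (a', b')
      (mem_coe.2 (mem_product.2 ⟨ha', hb'⟩)) he
    rwa [Prod.mk.injEq] at this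
  · rintro h ⟨a, b⟩ hab ⟨a', b'⟩ hab' he
    rw [mem_coe, mem_product] at hab hab'
    have := h a hab.1 a' hab'.1 b hab.2 b' hab'.2 he
    rw [this.1, this.2]

theorem nr_le_one {A B : Finset H} (h : Dir A B) (x : H) : nr A B x ≤ 1 := by
  unfold nr
  rw [card_le_one]
  rintro ⟨a, b⟩ hab ⟨a', b'⟩ hab'
  rw [mem_filter, mem_product] at hab hab'
  have := dir_iff.1 h a hab.1.1 a' hab'.1.1 b hab.1.2 b' hab'.1.2 (hab.2.trans hab'.2.symm)
  rw [this.1, this.2]

/-- The structure theorem: a family with the simultaneous double product property contains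
a large subfamily in which any two members `i ≠ j` are related: one of the sums `A i + B j`,
`A j + B i` is not direct. -/
theorem structure_thm [Fintype H] {n : ℕ} (A B : Fin n → Finset H)
    (h1 : ∀ i, Dir (A i) (B i))
    (h2 : ∀ i j k, i < k → Disjoint (A i + B j) (A j + B k)) :
    ∃ J : Finset (Fin n), (∀ i ∈ J, ∀ j ∈ J, i ≠ j → ¬ (Dir (A i) (B j) ∧ Dir (A j) (B i))) ∧
      (∑ i, ((A i).card : ℝ) * (B i).card) ^ 2 ≤ J.card * (n * (Fintype.card H : ℝ) ^ 2) := by
  classical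
  let P : Finset (Finset (Fin n)) := univ.filter fun J =>
    ∀ i ∈ J, ∀ j ∈ J, i ≠ j → ¬ (Dir (A i) (B j) ∧ Dir (A j) (B i))
  have hP : P.Nonempty := ⟨∅, by simp [P]⟩
  obtain ⟨J, hJ, hmax⟩ := exists_max_image P (fun J => J.card) hP
  refine ⟨J, (mem_filter.1 hJ).2, ?_⟩
  let w : Fin n → Fin n → ℝ := fun i j => if Dir (A i) (B j) ∧ Dir (A j) (B i) then 1 else 0
  have w01 : ∀ i j, w i j = 0 ∨ w i j = 1 := by
    intro i j
    by_cases h : Dir (A i) (B j) ∧ Dir (A j) (B i)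
    · exact Or.inr (if_pos h)
    · exact Or.inl (if_neg h)
  refine main_bound A B h1 h2 w ?_ ?_ (Nat.cast_nonneg _) ?_
  · intro i j
    rcases w01 i j with h | h
    · exact h.ge
    · rw [h]
      exact zero_le_one
  · intro i j x
    by_cases h : Dir (A i) (B j) ∧ Dir (A j) (B i)
    · have e : w i j = 1 := if_pos h
      rw [e, mul_one]
      have e1 := nr_le_one h.1 x
      have e2 := nr_le_one h.2 x
      exact_mod_cast (Nat.mul_le_mul e1 e2)
    · have e : w i j = 0 := if_neg h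
      rw [e, mul_zero]
      exact zero_le_one
  · intro J'
    refine turan_kernel w ?_ ?_ w01 _ J' rfl J.card ?_
    · intro i j
      exact if_congr (and_comm) rfl rfl
    · intro i
      exact if_pos ⟨h1 i, h1 i⟩
    · intro S _ hS0
      refine hmax S (mem_filter.2 ⟨mem_univ _, fun i hi j hj hij hd => ?_⟩)
      have := hS0 i hi j hj hij
      have e : w i j = 1 := if_pos hd
      rw [e] at this
      exact one_ne_zero this

/-- the linear bound -/
theorem linear_bound [Fintype H] {n : ℕ} (A B : Fin n → Finset H)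
    (h1 : ∀ i, Dir (A i) (B i))
    (h2 : ∀ i j k, i < k → Disjoint (A i + B j) (A j + B k))
    {K V : Type*} [Field K] [AddCommGroup V] [Module K V] [FiniteDimensional K V]
    (U W : Fin n → Submodule K V) (hU : ∀ i, Disjoint (U i) (W i))
    (hd : ∀ i j, i ≠ j → Disjoint (U i) (W j) → Dir (A i) (B j)) :
    (∑ i, ((A i).card : ℝ) * (B i).card) ^ 2 ≤
      4 ^ finrank K V * (n * (Fintype.card H : ℝ) ^ 2) := by
  obtain ⟨J, hJ1, hJ2⟩ := structure_thm A B h1 h2
  have h3 : Fintype.card J ≤ 4 ^ finrank K V := by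
    refine card_subspaces_le (fun i : J => U i) (fun i : J => W i) (fun i => hU i) ?_
    rintro ⟨i, hi⟩ ⟨j, hj⟩ hij ⟨h4, h5⟩
    have hij' : i ≠ j := fun e => hij (Subtype.ext e)
    exact hJ1 i hi j hj hij' ⟨hd i j hij' h4, hd j i hij'.symm h5⟩
  rw [Fintype.card_coe] at h3
  refine hJ2.trans (mul_le_mul_of_nonneg_right ?_ (by positivity))
  exact_mod_cast h3

/-- if all sums are direct -/
theorem aligned_bound [Fintype H] {n : ℕ} (A B : Fin n → Finset H)
    (h1 : ∀ i j, Dir (A i) (B j))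
    (h2 : ∀ i j k, i < k → Disjoint (A i + B j) (A j + B k)) :
    (∑ i, ((A i).card : ℝ) * (B i).card) ^ 2 ≤ n * (Fintype.card H : ℝ) ^ 2 := by
  obtain ⟨J, hJ1, hJ2⟩ := structure_thm A B (fun i => h1 i i) h2
  have h3 : J.card ≤ 1 := by
    rw [card_le_one]
    intro i hi j hj
    by_contra hij
    exact hJ1 i hi j hj hij ⟨h1 i j, h1 j i⟩
  have h4 : (J.card : ℝ) ≤ 1 := by exact_mod_cast h3
  refine hJ2.trans ?_
  calc (J.card : ℝ) * (n * (Fintype.card H : ℝ) ^ 2) ≤ 1 * (n * (Fintype.card H : ℝ) ^ 2) :=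
        mul_le_mul_of_nonneg_right h4 (by positivity)
    _ = _ := one_mul _

end

/-! ### Numbers -/

theorem seventeen (D : ℕ) : ((4 : ℝ) ^ D) ^ 47 ≤ ((17 : ℝ) ^ D) ^ 23 := by
  rw [← pow_mul, ← pow_mul, mul_comm D 47, mul_comm D 23, pow_mul, pow_mul]
  exact pow_le_pow_left₀ (by norm_num) (by norm_num) D

theorem numbers {n D : ℕ} (hn : 2 ≤ n) {h ε S : ℝ} (hD : (17 : ℝ) ^ D ≤ h)
    (hh : h ≤ (n : ℝ) ^ (2 + ε)) (hS : (n : ℝ) ^ (3 - ε) ≤ S)
    (hm : S ^ 2 ≤ 4 ^ D * (n * h ^ 2)) : 1 / 211 ≤ ε := by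
  have hn0 : (0 : ℝ) < n := by
    have : (2 : ℝ) ≤ n := by exact_mod_cast hn
    linarith
  have hn1 : (1 : ℝ) < n := by
    have : (2 : ℝ) ≤ n := by exact_mod_cast hn
    linarith
  have hh0 : 0 < h := lt_of_lt_of_le (by positivity) hD
  have e1 : (n : ℝ) ^ ((6 - 2 * ε) * 47) ≤ (S ^ 2) ^ 47 := by
    have e2 : (n : ℝ) ^ ((6 - 2 * ε) * 47) = (((n : ℝ) ^ (3 - ε)) ^ 2) ^ 47 := by
      rw [← Real.rpow_natCast, ← Real.rpow_natCast, ← Real.rpow_mul hn0.le, ← Real.rpow_mul hn0.le]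
      congr 1
      push_cast
      ring
    rw [e2]
    gcongr
  have e3 : (S ^ 2) ^ 47 ≤ (n : ℝ) ^ (47 + (2 + ε) * 117) := by
    have e4 : (n : ℝ) ^ (47 + (2 + ε) * 117) = (n : ℝ) ^ 47 * ((n : ℝ) ^ (2 + ε)) ^ 117 := by
      rw [Real.rpow_add hn0, Real.rpow_mul hn0.le]
      norm_cast
    rw [e4]
    calc (S ^ 2) ^ 47 ≤ (4 ^ D * (n * h ^ 2)) ^ 47 := by gcongr
      _ = ((4 : ℝ) ^ D) ^ 47 * ((n : ℝ) ^ 47 * h ^ 94) := by ring
      _ ≤ ((17 : ℝ) ^ D) ^ 23 * ((n : ℝ) ^ 47 * h ^ 94) :=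
          mul_le_mul_of_nonneg_right (seventeen D) (by positivity)
      _ ≤ h ^ 23 * ((n : ℝ) ^ 47 * h ^ 94) := by gcongr
      _ = (n : ℝ) ^ 47 * h ^ 117 := by ring
      _ ≤ (n : ℝ) ^ 47 * ((n : ℝ) ^ (2 + ε)) ^ 117 := by gcongr
  have e5 := (Real.rpow_le_rpow_left_iff hn1).1 (e1.trans e3)
  linarith

theorem numbers0 {n : ℕ} (hn : 2 ≤ n) {h ε S : ℝ} (hh0 : 0 ≤ h)
    (hh : h ≤ (n : ℝ) ^ (2 + ε)) (hS : (n : ℝ) ^ (3 - ε) ≤ S)
    (hm : S ^ 2 ≤ n * h ^ 2) : 1 / 4 ≤ ε := by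
  have hn0 : (0 : ℝ) < n := by
    have : (2 : ℝ) ≤ n := by exact_mod_cast hn
    linarith
  have hn1 : (1 : ℝ) < n := by
    have : (2 : ℝ) ≤ n := by exact_mod_cast hn
    linarith
  have e1 : (n : ℝ) ^ (6 - 2 * ε) ≤ S ^ 2 := by
    have e2 : (n : ℝ) ^ (6 - 2 * ε) = ((n : ℝ) ^ (3 - ε)) ^ 2 := by
      rw [← Real.rpow_natCast, ← Real.rpow_mul hn0.le]
      congr 1
      push_cast
      ring
    rw [e2]
    gcongr
  have e3 : S ^ 2 ≤ (n : ℝ) ^ (1 + (2 + ε) * 2) := by
    have e4 : (n : ℝ) ^ (1 + (2 + ε) * 2) = (n : ℝ) * ((n : ℝ) ^ (2 + ε)) ^ 2 := by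
      rw [Real.rpow_add hn0, Real.rpow_mul hn0.le, Real.rpow_one]
      norm_cast
    rw [e4]
    exact hm.trans (by gcongr)
  have e5 := (Real.rpow_le_rpow_left_iff hn1).1 (e1.trans e3)
  linarith

/-! ### Families in `F ^ D` -/

/-- the span of the differences of a set of vectors over a field -/
def dspan {F : Type*} [Field F] {D : ℕ} (A : Finset (Fin D → F)) : Submodule F (Fin D → F) :=
  Submodule.span F {x | ∃ a ∈ A, ∃ a' ∈ A, x = a - a'}

theorem dir_of_dspan {F : Type*} [Field F] [DecidableEq F] {D : ℕ} {A B : Finset (Fin D → F)}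
    (h : Disjoint (dspan A) (dspan B)) : Dir A B := by
  rw [dir_iff]
  intro a ha a' ha' b hb b' hb' he
  have h1 : a - a' ∈ dspan A := Submodule.subset_span ⟨a, ha, a', ha', rfl⟩
  have h2 : a - a' ∈ dspan B := by
    have : a - a' = b' - b := by rw [sub_eq_sub_iff_add_eq_add, he, add_comm]
    rw [this]
    exact Submodule.subset_span ⟨b', hb', b, hb, rfl⟩
  have h3 := Submodule.disjoint_def.1 h _ h1 h2
  have h4 := sub_eq_zero.1 h3
  refine ⟨h4, ?_⟩
  rw [h4] at he
  exact add_left_cancel he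

/-! ### Families in a product of cyclic groups, without wrapping -/

/-- the span over the rational numbers of the differences of the smallest nonnegative
representatives of the elements of `A - t` -/
def qspan {D : ℕ} (m : Fin D → ℕ) (t : ∀ c, ZMod (m c)) (A : Finset (∀ c, ZMod (m c))) :
    Submodule ℚ (Fin D → ℚ) :=
  Submodule.span ℚ {x | ∃ a ∈ A, ∃ a' ∈ A, x = fun c => (((a - t) c).val : ℚ) - ((a' - t) c).val}

theorem dir_of_qspan {D : ℕ} {m : Fin D → ℕ} [∀ c, NeZero (m c)] {t s : ∀ c, ZMod (m c)}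
    {A B : Finset (∀ c, ZMod (m c))} (hA : ∀ a ∈ A, ∀ c, 2 * ((a - t) c).val < m c)
    (hB : ∀ b ∈ B, ∀ c, 2 * ((b - s) c).val < m c)
    (h : Disjoint (qspan m t A) (qspan m s B)) : Dir A B := by
  rw [dir_iff]
  intro a ha a' ha' b hb b' hb' he
  have key : ∀ c, ((((a - t) c).val : ℤ) - ((a' - t) c).val) =
      (((b' - s) c).val : ℤ) - ((b - s) c).val := by
    intro c
    have e1 := hA a ha c
    have e2 := hA a' ha' c
    have e3 := hB b hb c
    have e4 := hB b' hb' c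
    have e5 : (((((a - t) c).val : ℤ) - ((a' - t) c).val -
        ((((b' - s) c).val : ℤ) - ((b - s) c).val) : ℤ) : ZMod (m c)) = 0 := by
      push_cast
      rw [ZMod.natCast_zmod_val, ZMod.natCast_zmod_val, ZMod.natCast_zmod_val,
        ZMod.natCast_zmod_val]
      have e6 := congrFun he c
      simp only [Pi.add_apply, Pi.sub_apply] at e6 ⊢
      linear_combination e6
    rw [ZMod.intCast_zmod_eq_zero_iff_dvd] at e5
    have e7 := Int.eq_zero_of_abs_lt_dvd e5 (by rw [abs_lt]; constructor <;> omega)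
    omega
  have h1 : (fun c => (((a - t) c).val : ℚ) - ((a' - t) c).val) ∈ qspan m t A :=
    Submodule.subset_span ⟨a, ha, a', ha', rfl⟩
  have h2 : (fun c => (((a - t) c).val : ℚ) - ((a' - t) c).val) ∈ qspan m s B := by
    have : (fun c => (((a - t) c).val : ℚ) - ((a' - t) c).val) =
        fun c => (((b' - s) c).val : ℚ) - ((b - s) c).val := by
      funext c
      have := key c
      exact_mod_cast this
    rw [this]
    exact Submodule.subset_span ⟨b', hb', b, hb, rfl⟩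
  have h3 := Submodule.disjoint_def.1 h _ h1 h2
  have h4 : a = a' := by
    funext c
    have e1 := congrFun h3 c
    have e2 : (((a - t) c).val : ℚ) = ((a' - t) c).val := sub_eq_zero.1 e1
    have e3 : ((a - t) c).val = ((a' - t) c).val := by exact_mod_cast e2
    have e4 := ZMod.val_injective _ e3
    simp only [Pi.sub_apply] at e4
    exact sub_left_inj.1 e4
  refine ⟨h4, ?_⟩
  rw [h4] at he
  exact add_left_cancel he

end Pool.Agent.Helper85_SD
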