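import Mathlib
import Pool.Agent.Helper85_SD.Lin

/-!
# The linear barrier for modules over local rings
-/

set_option autoImplicit false
set_option linter.unusedSectionVars false

open Finset Module
open scoped Pointwise

namespace Pool.Agent.Helper85_SD

variable {R : Type*} [CommRing R] [IsLocalRing R] {H : Type*} [AddCommGroup H] [Module R H]

/-- the socle -/
abbrev Soc (R : Type*) [CommRing R] [IsLocalRing R] (H : Type*) [AddCommGroup H] [Module R H] :
    Submodule R H :=
  Submodule.torsionBySet R H (IsLocalRing.maximalIdeal R)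

/-- the trace of a submodule on the socle, as a space over the residue field -/
def tr (U : Submodule R H) :
    Submodule (R ⧸ IsLocalRing.maximalIdeal R) (Soc R H) where
  carrier := {x | (x : H) ∈ U}
  add_mem' := fun {x y} hx hy => U.add_mem hx hy
  zero_mem' := U.zero_mem
  smul_mem' := by
    intro c x hx
    obtain ⟨r, rfl⟩ := Ideal.Quotient.mk_surjective c
    have : (Ideal.Quotient.mk (IsLocalRing.maximalIdeal R) r) • x = r • x :=
      Submodule.torsionBySet.mk_smul _ _ _
    change ((Ideal.Quotient.mk (IsLocalRing.maximalIdeal R) r • x : Soc R H) : H) ∈ U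
    rw [this]
    exact U.smul_mem r hx

theorem exists_soc [Finite H] {N : Submodule R H} (hN : N ≠ ⊥) :
    ∃ x : H, x ∈ N ∧ x ≠ 0 ∧ x ∈ Soc R H := by
  haveI : Finite N := inferInstance
  obtain ⟨S, hS, hSN⟩ := (eq_bot_or_exists_atom_le N).resolve_left hN
  have hs : IsSimpleModule R S := isSimpleModule_iff_isAtom.2 hS
  obtain ⟨x, hx, hx0⟩ := Submodule.exists_mem_ne_zero_of_ne_bot hS.1
  refine ⟨x, hSN hx, hx0, ?_⟩
  rw [Submodule.mem_torsionBySet_iff]
  rintro ⟨a, ha⟩
  have hm := IsSimpleModule.annihilator_isMaximal (R := R) (M := S)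
  have he := IsLocalRing.eq_maximalIdeal hm
  have ha' : a ∈ Module.annihilator R S := by rw [he]; exact ha
  have := Module.mem_annihilator.1 ha' ⟨x, hx⟩
  exact congrArg Subtype.val this

theorem tr_disjoint {U W : Submodule R H} (h : Disjoint U W) : Disjoint (tr U) (tr W) := by
  rw [Submodule.disjoint_def] at h ⊢
  intro x hx hx'
  exact Subtype.ext (h x hx hx')

theorem disjoint_of_tr [Finite H] {U W : Submodule R H} (h : Disjoint (tr U) (tr W)) :
    Disjoint U W := by
  rw [disjoint_iff]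
  by_contra hne
  obtain ⟨x, hx, hx0, hxs⟩ := exists_soc hne
  rw [Submodule.disjoint_def] at h
  have h1 := h ⟨x, hxs⟩ hx.1 hx.2
  exact hx0 (congrArg Subtype.val h1)

theorem dir_of_cosets [DecidableEq H] {U W : Submodule R H} {A B : Finset H}
    (hA : ∀ a ∈ A, ∀ a' ∈ A, a - a' ∈ U) (hB : ∀ b ∈ B, ∀ b' ∈ B, b - b' ∈ W)
    (h : Disjoint U W) : Dir A B := by
  rw [dir_iff]
  intro a ha a' ha' b hb b' hb' he
  have h1 := hA a ha a' ha'
  have h2 : a - a' ∈ W := by
    have : a - a' = b' - b := by rw [sub_eq_sub_iff_add_eq_add, he, add_comm]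
    rw [this]
    exact hB b' hb' b hb
  have h3 := Submodule.disjoint_def.1 h _ h1 h2
  have h4 := sub_eq_zero.1 h3
  refine ⟨h4, ?_⟩
  rw [h4] at he
  exact add_left_cancel he

/-- the barrier for families in cosets of submodules -/
theorem local_bound [Fintype H] [DecidableEq H] (hR : 17 ≤ Nat.card (R ⧸ IsLocalRing.maximalIdeal R))
    {n : ℕ} (A B : Fin n → Finset H) (U W : Fin n → Submodule R H)
    (hU : ∀ i, Disjoint (U i) (W i))
    (hA : ∀ i, ∀ a ∈ A i, ∀ a' ∈ A i, a - a' ∈ U i)
    (hB : ∀ i, ∀ b ∈ B i, ∀ b' ∈ B i, b - b' ∈ W i)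
    (h2 : ∀ i j k, i < k → Disjoint (A i + B j) (A j + B k)) :
    ∃ D : ℕ, 17 ^ D ≤ Fintype.card H ∧ (∑ i, ((A i).card : ℝ) * (B i).card) ^ 2 ≤
      4 ^ D * (n * (Fintype.card H : ℝ) ^ 2) := by
  classical
  letI : Field (R ⧸ IsLocalRing.maximalIdeal R) := Ideal.Quotient.field _
  haveI : Finite (R ⧸ IsLocalRing.maximalIdeal R) :=
    Nat.finite_of_card_ne_zero (by omega)
  haveI : Finite (Soc R H) := inferInstance
  haveI : FiniteDimensional (R ⧸ IsLocalRing.maximalIdeal R) (Soc R H) :=
    Module.Finite.of_finite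
  refine ⟨finrank (R ⧸ IsLocalRing.maximalIdeal R) (Soc R H), ?_, ?_⟩
  · have h3 : Nat.card (Soc R H) = Nat.card (R ⧸ IsLocalRing.maximalIdeal R) ^
        finrank (R ⧸ IsLocalRing.maximalIdeal R) (Soc R H) := Module.natCard_eq_pow_finrank
    have h4 : Nat.card (Soc R H) ≤ Fintype.card H := by
      rw [← Nat.card_eq_fintype_card]
      exact Nat.card_le_card_of_injective _ Subtype.val_injective
    calc 17 ^ finrank (R ⧸ IsLocalRing.maximalIdeal R) (Soc R H)
        ≤ Nat.card (R ⧸ IsLocalRing.maximalIdeal R) ^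
        finrank (R ⧸ IsLocalRing.maximalIdeal R) (Soc R H) := Nat.pow_le_pow_left hR _
      _ = Nat.card (Soc R H) := h3.symm
      _ ≤ _ := h4
  · exact linear_bound A B (fun i => dir_of_cosets (hA i) (hB i) (hU i)) h2
      (fun i => tr (U i)) (fun i => tr (W i)) (fun i => tr_disjoint (hU i))
      (fun i j _ h => dir_of_cosets (hA i) (hB j) (disjoint_of_tr h))

end Pool.Agent.Helper85_SD
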