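import Mathlib
import Pool.Agent.Helper85_SD.Lin
import Pool.Agent.Helper85_SD.Loc

set_option autoImplicit false

open Finset Module
open scoped Pointwise

namespace Pool.Agent.Helper85_SD.Parts

universe u v w

/-- Families `A i`, `B i` (`i < n`) with all sums `a + b`, `a ∈ A i`, `b ∈ B i`, distinct and
`A i + B j` disjoint from `A j + B k` for all `i < k` and all `j` (this is implied by the
simultaneous double product property). -/
theorem parts :
    -- (1) all finite abelian groups: there is a subfamily `J`, of size at least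
    -- `(∑ |A i| |B i|) ^ 2 / (n |H| ^ 2)`, no two members of which have both cross sums direct
    (∀ (H : Type u) [AddCommGroup H] [Fintype H] [DecidableEq H] (n : ℕ) (A B : Fin n → Finset H),
      (∀ i, (A i + B i).card = (A i).card * (B i).card) →
      (∀ i j k, i < k → Disjoint (A i + B j) (A j + B k)) →
      ∃ J : Finset (Fin n),
        (∀ i ∈ J, ∀ j ∈ J, i ≠ j → ¬ ((A i + B j).card = (A i).card * (B j).card ∧
          (A j + B i).card = (A j).card * (B i).card)) ∧
        (∑ i, ((A i).card : ℝ) * (B i).card) ^ 2 ≤ J.card * (n * (Fintype.card H : ℝ) ^ 2)) ∧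
    -- (2) all finite abelian groups: if the cross sums are direct whenever two subspaces of
    -- a `D`-dimensional space are disjoint, the bound holds with `4 ^ D` instead of `|J|`
    (∀ (H : Type u) [AddCommGroup H] [Fintype H] [DecidableEq H] (n : ℕ) (A B : Fin n → Finset H),
      (∀ i, (A i + B i).card = (A i).card * (B i).card) →
      (∀ i j k, i < k → Disjoint (A i + B j) (A j + B k)) →
      ∀ (K : Type v) (V : Type w) [Field K] [AddCommGroup V] [Module K V] [FiniteDimensional K V]
        (U W : Fin n → Submodule K V), (∀ i, Disjoint (U i) (W i)) →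
        (∀ i j, i ≠ j → Disjoint (U i) (W j) → (A i + B j).card = (A i).card * (B j).card) →
        (∑ i, ((A i).card : ℝ) * (B i).card) ^ 2 ≤
          4 ^ finrank K V * (n * (Fintype.card H : ℝ) ^ 2)) ∧
    -- (3) all finite abelian groups, all cross sums direct: no near-optimal family
    (∀ (H : Type u) [AddCommGroup H] [Fintype H] [DecidableEq H] (n : ℕ) (A B : Fin n → Finset H),
      (∀ i j, (A i + B j).card = (A i).card * (B j).card) →
      (∀ i j k, i < k → Disjoint (A i + B j) (A j + B k)) →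
      ∀ ε : ℝ, ε < 1 / 4 → 2 ≤ n → (Fintype.card H : ℝ) ≤ (n : ℝ) ^ (2 + ε) →
        ∑ i, ((A i).card : ℝ) * (B i).card < (n : ℝ) ^ (3 - ε)) ∧
    -- (4) `H` a finite module over a commutative local ring `R` whose residue field has at least
    -- `17` elements (`R = Z / p ^ k`: every finite abelian `p`-group, `p ≥ 17`; `R = F` a field:
    -- `H = F ^ D`), `A i` in a coset of `U i`, `B i` in a coset of `W i`, `U i ∩ W i = 0`:
    -- no near-optimal family
    (∀ (R : Type v) [CommRing R] [IsLocalRing R] (H : Type u) [AddCommGroup H] [Module R H]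
      [Fintype H] [DecidableEq H], 17 ≤ Nat.card (R ⧸ IsLocalRing.maximalIdeal R) →
      ∀ (n : ℕ) (A B : Fin n → Finset H) (U W : Fin n → Submodule R H),
      (∀ i, Disjoint (U i) (W i)) →
      (∀ i, ∀ a ∈ A i, ∀ a' ∈ A i, a - a' ∈ U i) →
      (∀ i, ∀ b ∈ B i, ∀ b' ∈ B i, b - b' ∈ W i) →
      (∀ i j k, i < k → Disjoint (A i + B j) (A j + B k)) →
      ∀ ε : ℝ, ε < 1 / 211 → 2 ≤ n → (Fintype.card H : ℝ) ≤ (n : ℝ) ^ (2 + ε) →
        ∑ i, ((A i).card : ℝ) * (B i).card < (n : ℝ) ^ (3 - ε)) ∧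
    -- (5) `H` a product of `D` cyclic groups `Z / m c`, `|H| ≥ 17 ^ D`, the elements of `A i - t i`
    -- and of `B i - s i` have all coordinates in `[0, m c / 2)`, and the spans over `ℚ` of the
    -- differences of these integer vectors meet only in `0`: no near-optimal family
    (∀ (D : ℕ) (m : Fin D → ℕ) [∀ c, NeZero (m c)] (n : ℕ)
      (A B : Fin n → Finset (∀ c, ZMod (m c))) (t s : Fin n → ∀ c, ZMod (m c)),
      17 ^ D ≤ ∏ c, m c →
      (∀ i, ∀ a ∈ A i, ∀ c, 2 * ((a - t i) c).val < m c) →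
      (∀ i, ∀ b ∈ B i, ∀ c, 2 * ((b - s i) c).val < m c) →
      (∀ i, Disjoint
        (Submodule.span ℚ {x : Fin D → ℚ | ∃ a ∈ A i, ∃ a' ∈ A i,
          x = fun c => (((a - t i) c).val : ℚ) - ((a' - t i) c).val})
        (Submodule.span ℚ {x : Fin D → ℚ | ∃ b ∈ B i, ∃ b' ∈ B i,
          x = fun c => (((b - s i) c).val : ℚ) - ((b' - s i) c).val})) →
      (∀ i j k, i < k → Disjoint (A i + B j) (A j + B k)) →
      ∀ ε : ℝ, ε < 1 / 211 → 2 ≤ n → (∏ c, (m c : ℝ)) ≤ (n : ℝ) ^ (2 + ε) →
        ∑ i, ((A i).card : ℝ) * (B i).card < (n : ℝ) ^ (3 - ε)) := by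
  refine ⟨?_, ?_, ?_, ?_, ?_⟩
  · intro H _ _ _ n A B h1 h2
    exact Helper85_SD.structure_thm A B h1 h2
  · intro H _ _ _ n A B h1 h2 K V _ _ _ _ U W hU hd
    exact Helper85_SD.linear_bound A B h1 h2 U W hU hd
  · intro H _ _ _ n A B h1 h2 ε hε hn hH
    by_contra hc
    have h3 := Helper85_SD.numbers0 hn (Nat.cast_nonneg _) hH (not_lt.1 hc)
      (Helper85_SD.aligned_bound A B h1 h2)
    linarith
  · intro R _ _ H _ _ _ _ hR n A B U W hU hA hB h2 ε hε hn hH
    by_contra hc
    obtain ⟨D, hD, h3⟩ := Helper85_SD.local_bound hR A B U W hU hA hB h2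
    have h4 : (17 : ℝ) ^ D ≤ Fintype.card H := by exact_mod_cast hD
    have h5 := Helper85_SD.numbers hn h4 hH (not_lt.1 hc) h3
    linarith
  · intro D m _ n A B t s hm hA hB h1 h2 ε hε hn hH
    by_contra hc
    have h3 := Helper85_SD.linear_bound A B
      (fun i => Helper85_SD.dir_of_qspan (hA i) (hB i) (h1 i)) h2
      (fun i => Helper85_SD.qspan m (t i) (A i)) (fun i => Helper85_SD.qspan m (s i) (B i)) h1
      (fun i j _ h => Helper85_SD.dir_of_qspan (hA i) (hB j) h)
    rw [Module.finrank_fin_fun, Fintype.card_pi] at h3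
    simp only [ZMod.card] at h3
    push_cast at h3
    have h4 : (17 : ℝ) ^ D ≤ ∏ c, (m c : ℝ) := by exact_mod_cast hm
    have h5 := Helper85_SD.numbers hn h4 hH (not_lt.1 hc) h3
    linarith

end Pool.Agent.Helper85_SD.Parts
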