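import Mathlib

/-!
# Turan's theorem, counted by ordered pairs
-/

set_option autoImplicit false

open Finset

namespace Pool.Agent.Helper85_SD

/-- Turan for a graph on a finite type -/
theorem turan_type {V : Type*} [Fintype V] [DecidableEq V] (G : SimpleGraph V)
    [DecidableRel G.Adj] (R : ℕ) (h : G.CliqueFree (R + 1)) :
    Fintype.card V ^ 2 ≤ R * (univ.filter fun p : V × V => ¬ G.Adj p.1 p.2).card := by
  rcases R.eq_zero_or_pos with rfl | hR
  · rw [SimpleGraph.cliqueFree_one] at h
    rw [Fintype.card_eq_zero]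
    simp
  obtain ⟨H, _, maxH⟩ := SimpleGraph.exists_isTuranMaximal (V := V) hR
  have h1 : G.edgeFinset.card ≤ H.edgeFinset.card := maxH.2 h
  have h2 : H.edgeFinset.card = (SimpleGraph.turanGraph (Fintype.card V) R).edgeFinset.card :=
    ((SimpleGraph.isTuranMaximal_iff_nonempty_iso_turanGraph hR).mp maxH).some.card_edgeFinset_eq
  have h3 := SimpleGraph.mul_card_edgeFinset_turanGraph_le (n := Fintype.card V) (r := R)
  have h4 : (univ.filter fun p : V × V => G.Adj p.1 p.2).card = 2 * G.edgeFinset.card := by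
    rw [← G.sum_degrees_eq_twice_card_edges]
    rw [Finset.card_filter, Fintype.sum_prod_type]
    refine Finset.sum_congr rfl fun v _ => ?_
    rw [← Finset.card_filter, ← SimpleGraph.card_neighborFinset_eq_degree]
    congr 1
    ext w
    simp
  have h5 : (univ.filter fun p : V × V => G.Adj p.1 p.2).card +
      (univ.filter fun p : V × V => ¬ G.Adj p.1 p.2).card = Fintype.card V ^ 2 := by
    rw [Finset.card_filter_add_card_filter_not, Finset.card_univ, Fintype.card_prod, sq]
  have h6 : 2 * R * G.edgeFinset.card ≤ (R - 1) * Fintype.card V ^ 2 :=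
    (Nat.mul_le_mul_left _ (h1.trans_eq h2)).trans h3
  obtain ⟨r, rfl⟩ : ∃ r, R = r + 1 := ⟨R - 1, by omega⟩
  rw [Nat.add_sub_cancel] at h6
  set n2 := Fintype.card V ^ 2
  set e := G.edgeFinset.card
  set c := (univ.filter fun p : V × V => ¬ G.Adj p.1 p.2).card
  rw [h4] at h5
  nlinarith

/-- Turan for a relation on a finite set -/
theorem turan_pairs {ι : Type*} [DecidableEq ι] (J : Finset ι) (rel : ι → ι → Prop)
    [DecidableRel rel] (hs : ∀ i j, rel i j → rel j i) (R : ℕ)
    (h : ∀ S ⊆ J, (∀ i ∈ S, ∀ j ∈ S, i ≠ j → rel i j) → S.card ≤ R) :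
    J.card ^ 2 ≤ R * ((J ×ˢ J).filter fun p : ι × ι => p.1 = p.2 ∨ ¬ rel p.1 p.2).card := by
  classical
  let G : SimpleGraph J :=
    { Adj := fun a b => a ≠ b ∧ rel a b
      symm := ⟨fun a b hab => ⟨Ne.symm hab.1, hs _ _ hab.2⟩⟩
      loopless := ⟨fun a ha => ha.1 rfl⟩ }
  have hG : G.CliqueFree (R + 1) := by
    intro S hS
    have h1 := h (S.map (Function.Embedding.subtype _)) (by
      intro x hx
      rw [Finset.mem_map] at hx
      obtain ⟨y, _, rfl⟩ := hx
      exact y.2) (by
      intro i hi j hj hij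
      rw [Finset.mem_map] at hi hj
      obtain ⟨a, ha, rfl⟩ := hi
      obtain ⟨b, hb, rfl⟩ := hj
      have hab : a ≠ b := fun e => hij (by rw [e])
      exact (hS.isClique ha hb hab).2)
    rw [Finset.card_map, hS.card_eq] at h1
    omega
  have h2 := turan_type G R hG
  rw [Fintype.card_coe] at h2
  refine h2.trans (Nat.mul_le_mul_left _ ?_)
  refine Finset.card_le_card_of_injOn (fun p => ((p.1 : ι), (p.2 : ι))) ?_ ?_
  · rintro ⟨a, b⟩ hab
    simp only [Finset.coe_filter, Finset.mem_univ, true_and, Set.mem_ofPred_eq] at hab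
    simp only [Finset.coe_filter, Finset.mem_product, Set.mem_ofPred_eq]
    refine ⟨⟨a.2, b.2⟩, ?_⟩
    by_cases he : (a : ι) = b
    · exact Or.inl he
    · refine Or.inr fun hr => hab ⟨fun e => he (by rw [e]), hr⟩
  · rintro ⟨a, b⟩ _ ⟨a', b'⟩ _ hab
    simp only [Prod.mk.injEq] at hab
    exact Prod.ext (Subtype.ext hab.1) (Subtype.ext hab.2)

end Pool.Agent.Helper85_SD
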